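import Mathlib

/-!
# Digit changes of `√2`: at least `(log n)^(3-ε)`  (project DC, helper862, MP_0308e6_nt)

Known record for the number of digit changes among the first `n` binary digits of `√2`
(Bugeaud–Evertse 2008, Subspace theorem): `(log n)^(3/2) (log log n)^(-1/2)`.
Here: for every `A < 3` at least `c (log n)^A`, by an elementary method.

Idea.  `e_k` = k-th digit increment, `P(z) = Σ e_k z^k`, `2 P(1/2)^2 = 1`, so
`2 P^2 - 1 = (1 - 2 z) H` with an INTEGER power series `H` having few nonzero coefficients.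
Modulo an odd prime `p` with `2` a non-residue put `t = 2z`, `ν = 2P`: `ν^2 = 2 + (1-t) S`, hence
`ν(t^p) = ν^p = -ν + (1-t) T` with `S, T` sparse.  So the step function `F(m) = Σ_{a ≤ m} ν_a`
(its jumps are exactly the digit changes) is self-similar: `F(m) = -F(⌊m/p⌋)` outside few `m`, and
`conv F R := Σ_{a ≤ R} ν_a F(R-a) = 2` outside few `R`.
* One prime: near an isolated jump `a` of `F` the identity `conv F (a+u) = 2` forces `F` on `[0,g/2)`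
  to have few jumps; self-similarity then gives `≥ c·Y` jumps in every block `[P^I,P^(I+1))`,
  `P = p²`, `Y` ≈ number of blocks.
* Many primes: a jump of `F_p` near `x` produces a digit change near `p x`; if the jump sets of
  different `p` overlapped much, a graph argument (paths with distinct primes) would give
  far too many digit changes.  Hence the numbers of jumps ADD UP over all inert `p ≤ (log n)^(1-ε)`.

All pieces below are closed Props; each has a complete proof in its doc string.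
`#` is cardinality.  Everything is elementary.
-/

set_option autoImplicit false

open Finset
open scoped Classical

namespace Pool.Agent.Run7.h862.DC

/-! ## Definitions -/

/-- The places `a` with `x < a < y` where `G` changes its value. -/
noncomputable def jumps {K : Type} (G : ℕ → K) (x y : ℕ) : Finset ℕ :=
  (Ioo x y).filter fun a => G a ≠ G (a - 1)

/-- The places of `[x,y)` where `F` and `G` differ. -/
noncomputable def errs {K : Type} (F G : ℕ → K) (x y : ℕ) : Finset ℕ :=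
  (Ico x y).filter fun m => F m ≠ G m

/-- The least number of changes inside `[x,y)` of a function that differs from `F` in at most
`ε` places of `[x,y)`. -/
noncomputable def rj {K : Type} (F : ℕ → K) (x y ε : ℕ) : ℕ :=
  sInf {k | ∃ G : ℕ → K, (errs F G x y).card ≤ ε ∧ (jumps G x y).card = k}

/-- Increments of `F` (with `F(-1) = 0`). -/
def inc {K : Type} [AddGroup K] (F : ℕ → K) (a : ℕ) : K := if a = 0 then F 0 else F a - F (a - 1)

/-- `conv F R = Σ_{a ≤ R} inc F a · F (R-a) = Σ_{a+b ≤ R} inc F a · inc F b`. -/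
def conv {K : Type} [CommRing K] (F : ℕ → K) (R : ℕ) : K :=
  ∑ a ∈ range (R + 1), inc F a * F (R - a)

/-- Hypotheses on one step function `F` below `n`: `q` = the prime, at most `J` jumps,
self-similarity with sign `-1` and ratio `q`, self-similarity with ratio `q*q`, and `conv F = c`,
each outside at most `δ` places. -/
structure SS (K : Type) [Field K] (q n J δ : ℕ) (c : K) (F : ℕ → K) : Prop where
  two : (2 : K) ≠ 0
  cne : c ≠ 0
  hq : 3 ≤ q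
  neg : ((range n).filter fun m => F m ≠ - F (m / q)).card ≤ δ
  sq : ((range n).filter fun m => F m ≠ F (m / (q * q))).card ≤ δ
  cv : ((range n).filter fun R => conv F R ≠ c).card ≤ δ
  jm : ((Ico 1 n).filter fun a => F a ≠ F (a - 1)).card ≤ J

/-! ## Basic facts (proved here, for use in the pieces) -/

theorem rj_set_nonempty {K : Type} (F : ℕ → K) (x y ε : ℕ) :
    {k | ∃ G : ℕ → K, (errs F G x y).card ≤ ε ∧ (jumps G x y).card = k}.Nonempty :=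
  ⟨(jumps F x y).card, F, by simp [errs], rfl⟩

/-- An optimal approximation exists. -/
theorem exists_opt {K : Type} (F : ℕ → K) (x y ε : ℕ) :
    ∃ G : ℕ → K, (errs F G x y).card ≤ ε ∧ (jumps G x y).card = rj F x y ε :=
  Nat.sInf_mem (rj_set_nonempty F x y ε)

/-- `rj` is a lower bound for the number of jumps of every approximation. -/
theorem rj_le {K : Type} {F G : ℕ → K} {x y ε : ℕ} (h : (errs F G x y).card ≤ ε) :
    rj F x y ε ≤ (jumps G x y).card :=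
  Nat.sInf_le ⟨G, h, rfl⟩

theorem rj_anti {K : Type} (F : ℕ → K) (x y : ℕ) {ε ε' : ℕ} (h : ε ≤ ε') :
    rj F x y ε' ≤ rj F x y ε := by
  obtain ⟨G, h1, h2⟩ := exists_opt F x y ε
  rw [← h2]
  exact rj_le (h1.trans h)

theorem rj_le_self {K : Type} (F : ℕ → K) (x y ε : ℕ) : rj F x y ε ≤ (jumps F x y).card :=
  rj_le (by simp [errs])

/-! ## Pieces on one step function -/

/-- **SEL** (60-120 lines).  Transfer of approximations between `[x,y)` and `[Px,Py)`.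
(1) From `G` on `[x,y)` put `G'(m) = G(m/P)`; its jumps in `(Px,Py)` are exactly the `P a` with `a` a
jump of `G` in `(x,y)`; `F m ≠ G'(m)` implies `F m ≠ F(m/P)` or `F(m/P) ≠ G(m/P)`, and each bad
`a ∈ [x,y)` has `P` children `m`.
(2) From `G` on `[Px,Py)` and `c < P` put `G_c(m) = G(Pm+c)`.  If `a ∈ (x,y)` is a jump of `G_c` then `G` has a
jump in `(P(a-1)+c, Pa+c] ⊆ (Px,Py)`; these intervals are disjoint, so `#jumps G_c ≤ #jumps G`.
`Σ_{c<P} #{m ∈ [x,y) : F m ≠ G(Pm+c)} = #{m' ∈ [Px,Py) : F(m'/P) ≠ G m'} ≤ ε + δ`, so some `c` has at most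
`(ε+δ)/P` errors. -/
def S_SEL : Prop :=
  ∀ (K : Type) (F : ℕ → K) (P x y ε δ : ℕ), 1 ≤ P →
    ((Ico (P * x) (P * y)).filter fun m => F m ≠ F (m / P)).card ≤ δ →
    rj F (P * x) (P * y) (P * ε + δ) ≤ rj F x y ε ∧
    rj F x y ((ε + δ) / P) ≤ rj F (P * x) (P * y) ε

/-- **ISO** (100-180 lines).  If halving the number of jumps is impossible at the coarser tolerance
`ε + (M+1) g`, then an optimal approximation at tolerance `ε` has a jump `a` with both adjacent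
constant pieces of length `≥ g`.
Proof.  Let `G` be optimal, `M` jumps, so `M+1` constant pieces of `[x,y)`.  Call a piece long if its length
is `≥ g`.  If no jump is isolated then no two adjacent pieces are both long, so there are `ℓ ≤ (M+2)/2` long
pieces.  If `ℓ = 0` the constant `G x` differs from `G` in at most `(M+1) g` places, so
`rj F x y (ε+(M+1)g) = 0`.  Otherwise give every short piece the value of the nearest long piece to its left
(of the first long piece if there is none): at most `ℓ-1 ≤ M/2` jumps and at most `(M+1) g` places changed,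
so `2 rj F x y (ε+(M+1)g) ≤ M`, contradiction. -/
def S_ISO : Prop :=
  ∀ (K : Type) (F : ℕ → K) (x y ε g : ℕ), 1 ≤ g →
    rj F x y ε < 2 * rj F x y (ε + (rj F x y ε + 1) * g) →
    ∃ (G : ℕ → K) (a : ℕ), (errs F G x y).card ≤ ε ∧ (jumps G x y).card = rj F x y ε ∧
      x + g ≤ a ∧ a + g ≤ y ∧ G a ≠ G (a - 1) ∧
      (∀ m, a - g ≤ m → m < a → G m = G (a - 1)) ∧ (∀ m, a ≤ m → m < a + g → G m = G a)

/-- The unordered pairs of jumps (in the sense `inc G ≠ 0`) `b' ≤ b < a`, both at least `g/2`, with sum in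
`[a, a+g/2)`. -/
noncomputable def prs {K : Type} [AddGroup K] (G : ℕ → K) (a g : ℕ) : Finset (ℕ × ℕ) :=
  (range a ×ˢ range a).filter fun w =>
    w.2 ≤ w.1 ∧ g ≤ 2 * w.2 ∧ a ≤ w.1 + w.2 ∧ 2 * (w.1 + w.2) < 2 * a + g ∧
      inc G w.1 ≠ 0 ∧ inc G w.2 ≠ 0

/-- **LOC** (80-160 lines).  Local identity near an isolated jump.
`conv G (a+u) - conv G (a-1) = Σ_{a ≤ b+b' ≤ a+u} inc G b · inc G b'` (ordered pairs), for `2u < g`.
If the smaller member `b'` has `2 b' < g` then the other one lies in `(a-g, a+g)`, so it is `a` (all other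
increments there vanish), and `b' ≤ u`: the two orders give `2 · inc G a · Σ_{b' ≤ u} inc G b' =
2 · inc G a · G u`.  All other pairs have both members `≥ g/2`, so both are `< a`; call their
contribution `Ψ u`.  `Ψ u ≠ Ψ (u-1)` (with `u ≥ 1`) forces a pair with `b+b' = a+u`, so the number of these `u`
is at most `#prs G a g` (map the pair to its sum). -/
def S_LOC : Prop :=
  ∀ (K : Type) [Field K] (G : ℕ → K) (a g : ℕ), 1 ≤ g → g ≤ a →
    (∀ m, a - g ≤ m → m < a → G m = G (a - 1)) → (∀ m, a ≤ m → m < a + g → G m = G a) →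
    ∃ Ψ : ℕ → K,
      (∀ u, 2 * u < g → conv G (a + u) = conv G (a - 1) + 2 * inc G a * G u + Ψ u) ∧
      ((Ico 1 g).filter fun u => 2 * u < g ∧ Ψ u ≠ Ψ (u - 1)).card ≤ (prs G a g).card

/-- **CNT** (60-120 lines).  If `G` has at most `M` jumps inside each block `[P^i,P^(i+1))`, `i ≤ I`, and
`P^I ≤ a < P^(I+1)`, then `#prs G a g ≤ 4 (M+1)²`.
Proof.  For `1 ≤ y < P^(I+1)`, `2 ≤ P`: the interval `[y,2y)` lies in two consecutive blocks, so it contains at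
most `2(M+1)` jumps `< P^(I+1)` (inside each block `≤ M`, plus its left end point).  For `(b,b') ∈ prs`:
`2b ≥ b+b' ≥ a` and `b < a`, so `b ∈ [y,2y)` with `y = ⌈a/2⌉ ≥ 1`: at most `2(M+1)` values.  Given
`b`: with `y' = max(a-b, ⌈g/2⌉) ≥ 1` one has `y' ≤ b' < (a-b) + g/2 ≤ 2y'`: at most `2(M+1)` values. -/
def S_CNT : Prop :=
  ∀ (K : Type) [AddGroup K] (G : ℕ → K) (P I M a g : ℕ), 2 ≤ P → 1 ≤ g →
    P ^ I ≤ a → a < P ^ (I + 1) →
    (∀ i, i ≤ I → (jumps G (P ^ i) (P ^ (i + 1))).card ≤ M) →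
    (prs G a g).card ≤ 4 * (M + 1) ^ 2

/-- **BASE** (120-200 lines).  Every block has an essential jump.
Proof.  Put `P = q*q`, `μ = ε ≥ max(δ,1)`.  If `rj = 0` there is `v` with `F = v` on `W = [P^I,P^(I+1))`
outside `≤ ε` places.  Among the `(q-1) q^(2I+1)` places `m ∈ [q^(2I+1), q^(2I+2)) ⊆ W` (their `m/q` lies in
`[q^(2I), q^(2I+1)) ⊆ W`) at most `ε + q ε + δ` have `F m ≠ v` or `F(m/q) ≠ v` or `F m ≠ -F(m/q)`; so
`v = -v`, `v = 0`.  Let `N_i = #{m ∈ [P^i,P^(i+1)) : F m ≠ 0}`; `P N_i ≤ N_(i+1) + δ` (all `P` children of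
such an `m` are nonzero places of `F` or exceptional), `N_I ≤ ε`; hence `Z := #{m < P^(I+1) : F m ≠ 0}
≤ 1 + 2 ε + I δ ≤ (I+3) ε`.  For `R ∈ W`: if `conv F R ≠ 0` there is `a ≤ R` with `inc F a ≠ 0` (at most `J+1`
such `a < n`) and `F(R-a) ≠ 0`; so `#{R ∈ W : conv F R ≠ 0} ≤ (J+1) Z`.  But `conv F R = c ≠ 0` outside
`δ` places, and `(J+1)(I+3) ε + δ ≤ (J+2)(I+3) ε < P^(I+1) - P^I`, contradiction. -/
def S_BASE : Prop :=
  ∀ (K : Type) [Field K] (q n J δ : ℕ) (c : K) (F : ℕ → K), SS K q n J δ c F →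
    ∀ I ε : ℕ, (q * q) ^ (I + 1) ≤ n → δ ≤ ε → 1 ≤ ε →
      8 * (J + 2) * (I + 2) * ε ≤ (q * q) ^ I →
      1 ≤ rj F ((q * q) ^ I) ((q * q) ^ (I + 1)) ε

/-- **BLK** (60-120 lines).  Comparison of blocks, from SEL by iteration.  `P = q*q`.
(1) `rj` at block `I` with tolerance `P^(I-i) (ε+δ)` is at most `rj` at block `i` with tolerance `ε`
(iterate `P ε + δ`: after `k` steps `P^k ε + δ (P^k-1)/(P-1) ≤ P^k (ε+δ)`, and `rj` is antitone in the
tolerance).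
(2) for `ε ≥ δ`, `rj` at block `i` with tolerance `ε` is at most `rj` at block `I` with tolerance `ε`
(`(ε+δ)/P ≤ ε`). -/
def S_BLK : Prop :=
  ∀ (K : Type) [Field K] (q n J δ : ℕ) (c : K) (F : ℕ → K), SS K q n J δ c F →
    ∀ i I ε : ℕ, i ≤ I → (q * q) ^ (I + 1) ≤ n →
      rj F ((q * q) ^ I) ((q * q) ^ (I + 1)) ((q * q) ^ (I - i) * (ε + δ))
        ≤ rj F ((q * q) ^ i) ((q * q) ^ (i + 1)) ε ∧
      (δ ≤ ε → rj F ((q * q) ^ i) ((q * q) ^ (i + 1)) ε ≤ rj F ((q * q) ^ I) ((q * q) ^ (I + 1)) ε)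

/-- **BETA** (150-250 lines; uses ISO, LOC, CNT, BLK(2) as hypotheses).  `P = q*q`, `M` = value of `rj` at block
`I`, tolerance `ε ≥ max(δ,1)`.
Proof.  ISO gives `G_I` on block `I` and the isolated jump `a`.  Take optimal `G_i` on the blocks `i < I`
(`≤ M` jumps each by BLK(2)) and glue: `G 0 = F 0`, `G = G_i` on `[P^i,P^(i+1))`.  Then `D := {m < P^(I+1) :
F m ≠ G m}` has `#D ≤ (I+1) ε`; the increments of `G` below `P^(I+1)` are nonzero in at most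
`1 + (I+1)(M+1)` places, those of `F` in at most `J+1`; `M ≤ J` (`rj_le_self`).  For `R < P^(I+1)`:
`conv F R - conv G R = Σ_{a'≤R} inc F a' (F-G)(R-a') + Σ_{a'≤R} (F-G)(R-a') inc G a'` (the two double sums
`Σ_{b+b'≤R} (inc F b inc F b' - inc G b inc G b')`), so `conv F = conv G` outside `#D · (J+2+(I+1)(J+1))`
places.  LOC and CNT for `G`, `a`: for `2u < g`, `2 inc G a · G u = conv G (a+u) - conv G (a-1) - Ψ u`, where
`Ψ` has at most `4(M+1)²` changes.  `inc G a ≠ 0` and `2 ≠ 0`, so with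
`Ĝ u = (c - conv G (a-1) - Ψ u) / (2 inc G a)` one has `F u = Ĝ u` for all `u < g/2` outside
`≤ (I+1) ε + δ + (I+1) ε (J+2+(I+1)(J+1)) ≤ 8 (J+2)(I+2)² ε` places.  So for every block `i` with
`2 P^(i+1) ≤ g` (inside `[1,g/2)`) `rj F .. (8(J+2)(I+2)²ε) ≤` number of changes of `Ĝ` inside the block;
the blocks are disjoint; sum. -/
def S_BETA : Prop :=
  ∀ (K : Type) [Field K] (q n J δ : ℕ) (c : K) (F : ℕ → K), SS K q n J δ c F →
    ∀ I ε g : ℕ, (q * q) ^ (I + 1) ≤ n → δ ≤ ε → 1 ≤ ε → 1 ≤ g →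
      rj F ((q * q) ^ I) ((q * q) ^ (I + 1)) ε
        < 2 * rj F ((q * q) ^ I) ((q * q) ^ (I + 1))
            (ε + (rj F ((q * q) ^ I) ((q * q) ^ (I + 1)) ε + 1) * g) →
      ∑ i ∈ (range (I + 1)).filter (fun i => 2 * (q * q) ^ (i + 1) ≤ g),
          rj F ((q * q) ^ i) ((q * q) ^ (i + 1)) (8 * (J + 2) * (I + 2) ^ 2 * ε)
        ≤ 4 * (rj F ((q * q) ^ I) ((q * q) ^ (I + 1)) ε + 1) ^ 2

/-- **REC** (60-120 lines; uses BETA, BLK(1) as hypotheses).  With `P = q*q` and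
`h j := rj F (P^I) (P^(I+1)) (P^(I-j))`: for `κ ≤ m ≤ Y ≤ I`, `δ ≤ P^(I-Y)`, `64 (J+2)(I+2)² ≤ P^κ`:
`2 h(m-κ) ≤ h(Y)` or `Σ_{s < Y-m-κ-1} h(s) ≤ 4 (h(Y)+1)²`.
Proof.  `ε = P^(I-Y)`, `g = P^(I-m)`, `M = h(Y) ≤ J`; `ε + (M+1) g ≤ (J+2) P^(I-m) ≤ P^(I-m+κ) =
P^(I-(m-κ))` when `m - κ ≤ I` etc.; so if `h(Y) < 2 h(m-κ)` then BETA applies.  For a block `i ≤ I-m-2`
(`2 P^(i+1) ≤ P^(i+2) ≤ g`): by BLK(1) with tolerance `ε₁ = 8(J+2)(I+2)²ε`,
`P^(I-i) (ε₁+δ) ≤ P^(I-i) P^κ P^(I-Y) = P^(I-s)` with `s = i + Y - κ - I` (natural number for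
`i ≥ I + κ - Y`), so `h(s) ≤ rj` at block `i`.  `i` from `I+κ-Y` to `I-m-2` gives `s` from `0` to `Y-m-κ-2`. -/
def S_REC : Prop :=
  ∀ (K : Type) [Field K] (q n J δ : ℕ) (c : K) (F : ℕ → K), SS K q n J δ c F →
    ∀ I κ m Y : ℕ, (q * q) ^ (I + 1) ≤ n → 64 * (J + 2) * (I + 2) ^ 2 ≤ (q * q) ^ κ →
      κ ≤ m → m ≤ Y → Y ≤ I → δ ≤ (q * q) ^ (I - Y) →
      2 * rj F ((q * q) ^ I) ((q * q) ^ (I + 1)) ((q * q) ^ (I - (m - κ)))
          ≤ rj F ((q * q) ^ I) ((q * q) ^ (I + 1)) ((q * q) ^ (I - Y)) ∨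
      ∑ s ∈ range (Y - m - κ - 1), rj F ((q * q) ^ I) ((q * q) ^ (I + 1)) ((q * q) ^ (I - s))
          ≤ 4 * (rj F ((q * q) ^ I) ((q * q) ^ (I + 1)) ((q * q) ^ (I - Y)) + 1) ^ 2

/-- **NUM** (80-150 lines).  The numerical recursion.  `B = 12(κ+5)`, `C₁ = 6000`.
Claim: `h Y ≥ min (Y/C₁) ((Y/B)^(5/4))` (reals) for all `κ ≤ Y ≤ T`; strong induction.  `Y ≤ B`: `h ≥ 1`.
`Y > B`: suppose `h Y < Y/C₁`.  Take `m = ⌈3Y/4⌉`, `Y' = m-κ`: `2Y/3 ≤ Y' < Y`, `Y' ≥ κ`.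
First alternative: `h Y ≥ 2 h Y' ≥ 2 min ((2Y/3)/C₁, (2Y/(3B))^(5/4))`; `4/3 > 1` excludes the first, and
`2 (2/3)^(5/4) > 1`.  Second alternative: `Y-m-κ-1 ≥ Y/6`, so the sum contains at least `Y/12-1 ≥ Y/15` indices
`s ≥ Y/12`, hence `(Y/15) h⌈Y/12⌉ ≤ 4 (h Y+1)² ≤ 16 (h Y)²`, i.e. `(h Y)² ≥ (Y/240) h⌈Y/12⌉`; by induction
`h⌈Y/12⌉ ≥ min ((Y/12)/C₁, (Y/(12B))^(5/4))`.  The first would give `(h Y)² ≥ Y²/(2880 C₁) ≥ (Y/C₁)²`.
The second, divided by `h Y < Y/C₁`: `h Y ≥ (C₁/240) 12^(-5/4) (Y/B)^(5/4) = (25/22.33..) (Y/B)^(5/4)`.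
Finally for `Y ≥ B^5`, `(Y/B)^(5/4) ≥ Y`. -/
def S_NUM : Prop :=
  ∀ (h : ℕ → ℕ) (κ T : ℕ), (∀ i j, i ≤ j → j ≤ T → h i ≤ h j) → (∀ j, κ ≤ j → j ≤ T → 1 ≤ h j) →
    (∀ m Y, κ ≤ m → m ≤ Y → Y ≤ T →
      2 * h (m - κ) ≤ h Y ∨ ∑ s ∈ range (Y - m - κ - 1), h s ≤ 4 * (h Y + 1) ^ 2) →
    ∀ Y, (12 * (κ + 5)) ^ 5 ≤ Y → Y ≤ T → Y ≤ 6000 * h Y

/-- **ONE** (40-80 lines; uses REC, BASE, NUM as hypotheses).  The one-prime bound.  `P = q*q`.
Apply NUM with `h j = rj F (P^I) (P^(I+1)) (P^(I-j))` and `T = Y`: monotone by `rj_anti`; `h j ≥ 1` for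
`κ ≤ j ≤ Y` by BASE (`h j ≥ h κ` and BASE with `ε = P^(I-κ) ≥ P^(I-Y) ≥ max(δ,1)`,
`8(J+2)(I+2) P^(I-κ) ≤ P^I`); the recursion is REC. -/
def S_ONE : Prop :=
  ∀ (K : Type) [Field K] (q n J δ : ℕ) (c : K) (F : ℕ → K), SS K q n J δ c F →
    ∀ I κ Y : ℕ, (q * q) ^ (I + 1) ≤ n → 64 * (J + 2) * (I + 2) ^ 2 ≤ (q * q) ^ κ →
      (12 * (κ + 5)) ^ 5 ≤ Y → Y ≤ I → δ ≤ (q * q) ^ (I - Y) →
      Y ≤ 6000 * rj F ((q * q) ^ I) ((q * q) ^ (I + 1)) ((q * q) ^ (I - Y))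

/-- **UP** (150-250 lines).  Essential jumps near `a` produce jumps near `q a`, injectively.
Proof.  Cut `[x,y)` at the jumps of `F` into at most `J+1` maximal constant pieces; a piece is long if its
length is `≥ 2g`.  Let `L_1 < L_2 < …` be the long pieces, `v_k` the value of `F` on `L_k`.  Let `G` be `F` on
long pieces and on short pieces the value of the last long piece before it (of `L_1` if there is none; if
there are no long pieces `G` constant).  `#errs F G x y ≤ (J+1)·2g`.  The jumps of `G` inside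
`(x,y)` are the left end points `s` of those `L_(k+1)` with `v_(k+1) ≠ v_k`; such an `s` is a jump of `F`.  Let
`X` be the set of these; `#X = #jumps G ≥ rj F x y (2(J+1)g)`.  For each long piece `[s,t)` choose
`m⁻ ∈ [q s, q(s+g))` and `m⁺ ∈ [q(t-g), q t)` with `F(m^±) = -v` (each of these intervals has `q g > δ`
places `m`, all with `m/q ∈ [s,t)`, and `F m = -F(m/q)` outside `≤ δ` places).  For `s ∈ X`, `s = ` left end of
`L_(k+1)`: `F(m⁺_k) = -v_k ≠ -v_(k+1) = F(m⁻_(k+1))`, so there is a jump `φ s` of `F` in `(m⁺_k, m⁻_(k+1)]`.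
These intervals are disjoint for different `k` (`t-g ≥ s+g`), so `φ` is injective; and
`|φ s - q s| ≤ q (2g(J+1) + g) ≤ 4 q (J+1) g`; `q x ≤ φ s < q y`. -/
def S_UP : Prop :=
  ∀ (K : Type) [AddGroup K] (F : ℕ → K) (q n J δ g x y : ℕ), 1 ≤ q → 1 ≤ g → δ < q * g → q * y ≤ n →
    x ≤ y →
    ((range n).filter fun m => F m ≠ - F (m / q)).card ≤ δ →
    ((Ico 1 n).filter fun a => F a ≠ F (a - 1)).card ≤ J →
    ∃ (X : Finset ℕ) (φ : ℕ → ℕ),
      (∀ a ∈ X, x < a ∧ a < y ∧ F a ≠ F (a - 1)) ∧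
      Set.InjOn φ (X : Set ℕ) ∧
      (∀ a ∈ X, q * x ≤ φ a ∧ φ a < q * y ∧ 1 ≤ φ a ∧ F (φ a) ≠ F (φ a - 1) ∧
        |(φ a : ℤ) - q * a| ≤ 4 * q * (J + 1) * g) ∧
      rj F x y (2 * (J + 1) * g) ≤ X.card

/-! ## The graph lemma and the primes -/

/-- **GR** (150-250 lines).  The graph lemma: sets `X p ⊆ D` with injective maps `φ p : X p → D`,
`φ p a ≈ p a`, for many primes `p`, cannot overlap much.
Proof.  If `k = 0` or `ℓ = 0` the conclusion is trivial.  Edges: `E = {(p,a) : p ∈ PP, a ∈ X p}`, from `a` to `φ p a`,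
`#E ≥ k #D`.  No loops (`φ p a = a` gives `a (p-1) ≤ pτ`, `a ≤ 2τ < N`, or `a = 0`).  Choose a nonempty
`V ⊆ D` of minimal size with `#{(p,a) ∈ E : a ∈ V, φ p a ∈ V} ≥ k #V`.  Then every `v ∈ V` has at least `k`
edges inside `V` (else remove `v`; `V = {v}` is impossible without loops).  Each label `(p,+)` (edge
out of `v` with prime `p`) and `(p,-)` (edge into `v` with prime `p`, unique by injectivity) occurs at most once at
`v`.  Fix `v₀ ∈ V`.  Let `S_i` be the set of pairs (label set `Λ` of size `i` with distinct primes, end point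
`v ∈ V`) of paths from `v₀` using each label of `Λ` once.  Each element of `S_i` extends in at
least `k - 2i` ways; each element of `S_(i+1)` comes from at most `i+1` elements of `S_i` (choose the last label;
the previous vertex is then determined).  So `#S_ℓ · ℓ! ≥ (k-2ℓ)^ℓ`.  `(Λ,v) ↦ v` is injective on `S_ℓ`: along the
path each step multiplies by `p^{±1}(1+θ)`, `|θ| ≤ 2τ/N =: η` and `η ≤ 1/(8 ℓ z^(2ℓ))`; two label sets with the
same end point would give `|u v'/(u' v) - 1| ≤ ((1+η)/(1-η))^ℓ - 1 < z^(-2ℓ)` for the integers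
`u v' ≠ u' v` (different by unique factorisation, each `≤ z^(2ℓ)`), contradiction.  So `#D ≥ #S_ℓ`. -/
def S_GR : Prop :=
  ∀ (D PP : Finset ℕ) (X : ℕ → Finset ℕ) (φ : ℕ → ℕ → ℕ) (z N τ k l : ℕ),
    (∀ p ∈ PP, p.Prime ∧ p ≤ z) → D.Nonempty → 1 ≤ N → 1 ≤ z →
    (∀ p ∈ PP, ∀ a ∈ X p, a ∈ D ∧ N ≤ a ∧ φ p a ∈ D ∧ |(φ p a : ℤ) - p * a| ≤ p * τ) →
    (∀ p ∈ PP, Set.InjOn (φ p) (X p : Set ℕ)) →
    16 * (l + 1) * (τ + 1) * z ^ (2 * l + 2) ≤ N →
    k * D.card ≤ ∑ p ∈ PP, (X p).card →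
    (k - 2 * l) ^ l ≤ l.factorial * D.card

/-- The Dirichlet character `χ₈` as an integer function: `1` at `±1`, `-1` at `±3` mod 8, `0` at even numbers. -/
def chi8 (n : ℕ) : ℤ := if n % 2 = 0 then 0 else if n % 8 = 1 ∨ n % 8 = 7 then 1 else -1

/-- **MER** (150-250 lines).  `Σ_{d ≤ N} χ(d) Λ(d)/d` is bounded.
Proof.  `S₀(x) = Σ_{m ≤ x} χ(m)/m`; grouping eight consecutive terms, `|S₀(y) - S₀(x)| ≤ C/x` for `y ≥ x ≥ 1` and
`S₀(8k) ≥ 1 - 1/3 - 1/5 + 1/7 > 1/2` for `k ≥ 1`; so `S₀ → L ≥ 1/2` and `|S₀(x) - L| ≤ C/x`.  Similarly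
`S₁(N) = Σ_{n ≤ N} χ(n) log n / n` is bounded.  By `log n = Σ_{d ∣ n} Λ(d)`
(`ArithmeticFunction.vonMangoldt_sum`) and complete multiplicativity
`S₁(N) = Σ_{d ≤ N} χ(d)Λ(d)/d · S₀(⌊N/d⌋) = L Σ_{d ≤ N} χ(d)Λ(d)/d + O(Σ_{d ≤ N} Λ(d)/N)`,
(as `|S₀(⌊N/d⌋) - L| ≤ 2C d/N`) and `Σ_{d ≤ N} Λ(d) = O(N)` (Chebyshev, in Mathlib:
`Mathlib/NumberTheory/Chebyshev.lean`, `Chebyshev.psi`). -/
def S_MER : Prop :=
  ∃ C : ℝ, ∀ N : ℕ, |∑ d ∈ Icc 1 N, (chi8 d : ℝ) * ArithmeticFunction.vonMangoldt d / d| ≤ C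

/-- **PR** (120-220 lines; uses MER as hypothesis).  Many primes `≡ ±3 (mod 8)`.
Proof.  Mertens: `|Σ_{d ≤ N} Λ(d)/d - log N| ≤ C` for `N ≥ 1`, from
`log N! = Σ_{d ≤ N} Λ(d) ⌊N/d⌋`, `N log N - N ≤ log N! ≤ N log N` and Chebyshev.  Prime powers
`p^k, k ≥ 2` contribute at most `Σ log p/(p(p-1)) ≤ C` to either sum.  With MER: `M(N) := Σ_{p ≤ N, p ≡ ±3 (8)}
log p / p = ½ log N + O(1)` (the prime 2 contributes `O(1)`).  For `z` large and `y = z^(1-ε/2)`: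
`M(z) - M(y) ≥ (ε/4) log z - 2C ≥ 1`, while each prime in `(y,z]` contributes at most `log z / y`; so their
number is at least `y / log z ≥ z^(1-ε)`. -/
def S_PR : Prop :=
  ∀ ε : ℝ, 0 < ε → ∃ z₀ : ℕ, ∀ z : ℕ, z₀ ≤ z →
    (z : ℝ) ^ (1 - ε) ≤ (((range (z + 1)).filter fun p => p.Prime ∧ (p % 8 = 3 ∨ p % 8 = 5)).card : ℝ)

/-! ## Algebra: `√2` modulo `p` -/

/-- **FROB** (120-200 lines).  The Frobenius step, for any `F : ℕ → ZMod p`.
Proof.  In `(ZMod p)⟦X⟧` (or with truncated polynomials) let `ν = Σ inc F a X^a`, `S = Σ (conv F R - c) X^R`.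
`conv F R = Σ_{i ≤ R} (ν²)_i`, so `(1-X) S = ν² - c`.  Let `T = Σ (F m + F (m/p)) X^m`.  `ν^p = ν(X^p)` has partial
sums `F (m/p)`, so `(1-X) T = ν^p + ν`.  With `h = (p-1)/2`: `ν^p = ν (c + (1-X)S)^h = ν (c^h + (1-X) S U)`,
`U = Σ_{k=1}^{h} C(h,k) c^(h-k) ((1-X)S)^(k-1)`, `c^h = -1`, so `T = ν S U`.  Number of nonzero coefficients
below `n`: `ν`: `≤ Jν`, `S`: `≤ e`, `(1-X)S`: `≤ 2e`, products: at most the product of the numbers, `U`:
`≤ Σ_{k<h} (2e)^k ≤ (2e+1)^h`. -/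
def S_FROB : Prop :=
  ∀ (p : ℕ) [Fact p.Prime] (c : ZMod p) (F : ℕ → ZMod p) (n Jν e : ℕ), p ≠ 2 →
    c ^ ((p - 1) / 2) = -1 →
    ((range n).filter fun a => inc F a ≠ 0).card ≤ Jν →
    ((range n).filter fun R => conv F R ≠ c).card ≤ e →
    ((range n).filter fun m => F m ≠ - F (m / p)).card ≤ Jν * e * (2 * e + 1) ^ ((p - 1) / 2)

/-- The `k`-th binary digit of `√2` (`k = 0`: the integer part `1`). -/
noncomputable def dg (k : ℕ) : ℤ := ⌊Real.sqrt 2 * (2 : ℝ) ^ k⌋ % 2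

/-- The digit increments `e_0 = 1`, `e_k = dg k - dg (k-1) ∈ {-1,0,1}`. -/
noncomputable def ed (k : ℕ) : ℤ := if k = 0 then dg 0 else dg k - dg (k - 1)

/-- `Kc n` = number of `k < n` with `e_k ≠ 0` (= 1 + number of digit changes up to `n-1`). -/
noncomputable def Kc (n : ℕ) : ℕ := ((range n).filter fun k => ed k ≠ 0).card

/-- The step function of `√2` modulo `p`: `F_p m = Σ_{a ≤ m} 2 e_a 2^(-a)` in `ZMod p`. -/
noncomputable def Fp (p : ℕ) (m : ℕ) : ZMod p :=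
  ∑ a ∈ range (m + 1), 2 * (ed a : ZMod p) * ((2 : ZMod p)⁻¹) ^ a

/-- **DIG** (150-250 lines).  `conv F_p = 2` outside few places.
Proof.  Digits: `Σ_k dg k 2^(-k) = √2` (partial sums `⌊√2 2^m⌋ / 2^m`), so `Σ_k e_k 2^(-k) = √2/2` and with
`G_m = 2 Σ_{a+b=m} e_a e_b - [m = 0] ∈ ℤ`: `Σ_m G_m 2^(-m) = 2 (√2/2)² - 1 = 0` (absolutely convergent Cauchy
product; `|G_m| ≤ 2(m+1)+1`).  Put `h_m = Σ_{i ≤ m} 2^(m-i) G_i ∈ ℤ`; so `h_m = -Σ_{i>m} 2^(m-i) G_i` and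
`Σ_{m<n} |h_m| ≤ Σ_{1 ≤ i < n} |G_i| + Σ_{i ≥ n} 2^(n-i) |G_i|`.  With `K = Kc n`: the first sum is
`≤ 2 K²` (pairs of nonzero increments below `n`), and for `i ≥ n`, `|G_i| ≤ 2 #{a ≤ i : e_a ≠ 0} ≤ 2 (K + i-n+1)`, so
the second sum is `≤ Σ_{j ≥ 0} 2 (K+1+j) 2^(-j) = 4 K + 8`.  Hence `#{m < n : h_m ≠ 0} ≤ 2 (K+2)²`.  (One can avoid
infinite sums: `|h_m| < ...` via `Σ_{i≤m} 2^(-i) G_i = 2 (Σ..)² ...`, as you like.)  Modulo `p` (odd): `inc F_p a =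
2 e_a 2^(-a)`, `conv F_p R = Σ_{i ≤ R} Σ_{a+b=i} 4 e_a e_b 2^(-i) = Σ_{i≤R} 2 (G_i + [i=0]) 2^(-i) =
2 + 2·2^(-R) h_R`.  So `conv F_p R ≠ 2` implies `h_R ≠ 0`. -/
def S_DIG : Prop :=
  ∀ (p : ℕ) [Fact p.Prime], p ≠ 2 → ∀ n : ℕ,
    ((range n).filter fun R => conv (Fp p) R ≠ 2).card ≤ 2 * (Kc n + 2) ^ 2

/-- **SSP** (60-100 lines; uses FROB, DIG as hypotheses).  The step functions of `√2` satisfy `SS`.
Proof.  `p ≡ ±3 mod 8`: `2` is a non-residue (`ZMod.exists_sq_eq_two_iff`, `ZMod.euler_criterion`), so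
`2^((p-1)/2) = -1`.  `inc F_p a = 2 e_a 2^(-a)` is nonzero iff `e_a ≠ 0` (`|e_a| ≤ 1`).  FROB with `Jν = Kc n`,
`e = 2 (Kc n+2)²` gives `δ₁ = Jν e (2e+1)^((p-1)/2)`; `F m ≠ F(m/(p p))` implies that `m` or `m/p` is exceptional for
`F m = -F(m/p)`, so at most `(p+1) δ₁` such `m < n`. -/
def S_SSP : Prop :=
  ∀ (p : ℕ) [Fact p.Prime], (p % 8 = 3 ∨ p % 8 = 5) → ∀ n δ : ℕ,
    (p + 1) * (Kc n * (2 * (Kc n + 2) ^ 2) * (4 * (Kc n + 2) ^ 2 + 1) ^ ((p - 1) / 2))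
        + 2 * (Kc n + 2) ^ 2 ≤ δ →
    SS (ZMod p) p n (Kc n) δ 2 (Fp p) ∧ ∀ a, 1 ≤ a → (Fp p a ≠ Fp p (a - 1) ↔ ed a ≠ 0)

/-- **FIN** (helper862).  The final statement: for every `A < 3` there is `c > 0` such that for all `n ≥ 2` at least
`c (log n)^A` of the places `k ≤ n` are digit changes of `√2`. -/
def S_FIN : Prop :=
  ∀ A : ℝ, A < 3 → ∃ c : ℝ, 0 < c ∧ ∀ n : ℕ, 1 ≤ n →
    c * (Real.log n) ^ A ≤ (((Icc 1 n).filter fun k => dg k ≠ dg (k - 1)).card : ℝ)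

end Pool.Agent.Run7.h862.DC
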